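import Pool.Agent.NPG.Stmts
import Pool.Agent.LSG.StmtsD

/-!
# Squad NPG (MP_005a41_gt), row ONE: one set with one locally constant centre
-/

set_option autoImplicit false

open MeasureTheory Set Topology
open scoped BigOperators Pointwise

namespace Pool.Agent.NPG.H4

open Pool.Agent.LSG Pool.Agent.NPG

lemma exists_eps (H : Type) [TopologicalSpace H] [TopologicalSpace.MetrizableSpace H] (V : Set H)
    (hV : IsOpen V) : ∃ ε : C(H, ℝ), (∀ x, 0 ≤ ε x) ∧ ∀ x, ε x ≠ 0 ↔ x ∈ V := by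
  let _ := TopologicalSpace.metrizableSpaceMetric H
  by_cases h : (Vᶜ).Nonempty
  · refine ⟨⟨fun x => Metric.infDist x Vᶜ, Metric.continuous_infDist_pt _⟩,
      fun x => Metric.infDist_nonneg, fun x => ?_⟩
    change Metric.infDist x Vᶜ ≠ 0 ↔ x ∈ V
    have h1 := hV.isClosed_compl.mem_iff_infDist_zero (x := x) h
    rw [ne_eq, ← h1, mem_compl_iff, not_not]
  · rw [Set.not_nonempty_iff_eq_empty, Set.compl_empty_iff] at h
    refine ⟨ContinuousMap.const H 1, fun x => ?_, fun x => ?_⟩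
    · simp
    · simp [h]

/-- ONE -/
theorem one (h1 : SlrStmt) (h2 : CtkStmt) : OneStmt := by
  intro H _ _ _ _ V V₀ d l L D Z ξ hV hV1 hVi hV₀ hV₀1 hV₀i hVV hdis hdL hlL hden hinv hdec hloc
  obtain ⟨ε, hε0, hε⟩ := exists_eps H V hV
  have hξc : Continuous (fun h : D => ξ h.1) := by
    have : IsLocallyConstant (fun h : D => ξ h.1) := by
      rw [IsLocallyConstant.iff_eventually_eq]
      intro x
      have h3 := (continuous_subtype_val.tendsto x).eventually (hloc x.1 x.2)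
      exact h3.mono fun y hy => hy y.2
    exact this.continuous
  obtain ⟨φ, hφ⟩ : ∃ φ : ℕ → C(D, ℝ), ∀ j (h : D), φ j h = ε ((ξ h.1)⁻¹ * h.1 * (l j)⁻¹) :=
    ⟨fun j => ⟨fun h => ε ((ξ h.1)⁻¹ * h.1 * (l j)⁻¹),
      ε.continuous.comp ((hξc.inv.mul continuous_subtype_val).mul continuous_const)⟩,
      fun j h => rfl⟩
  obtain ⟨χ, hχ, hχl, hχs⟩ := h2 D φ (fun m h => by rw [hφ]; exact hε0 _) (fun h => by
    obtain ⟨w, hw, z, hz, hh⟩ := hdec h.1 h.2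
    obtain ⟨j, hj⟩ := hden z hz V₀ (hV₀.mem_nhds hV₀1)
    refine ⟨j, ?_⟩
    rw [hφ, hε]
    have h3 := hVV w hw _ hj
    have h4 : (ξ h.1)⁻¹ * h.1 * (l j)⁻¹ = w * (z * (l j)⁻¹) := by
      have h5 : (ξ h.1)⁻¹ * h.1 = w * z := by
        rw [inv_mul_eq_iff_eq_mul, ← mul_assoc]
        exact hh
      rw [h5, mul_assoc]
    rwa [h4])
  have hv : ∀ m (h : D), χ m h ≠ 0 → (ξ h.1)⁻¹ * h.1 * (l m)⁻¹ ∈ V := by
    intro m h hm
    have h3 := hχ m h hm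
    rwa [hφ, hε] at h3
  have hgL : ∀ m s, (l m)⁻¹ * d s ∈ L := fun m s => L.mul_mem (L.inv_mem (hlL m)) (hdL s)
  obtain ⟨τ, hτ⟩ : ∃ τ : ℕ → ℕ → (D ≃ₜ D), ∀ n m (h : D),
      (τ n m h).1 = h.1 * ((l m)⁻¹ * d (Nat.pair n m)) :=
    ⟨fun n m => (Homeomorph.mulRight ((l m)⁻¹ * d (Nat.pair n m))).subtype
      (fun x => ((hinv x _ (hgL m _)).1).symm), fun n m h => rfl⟩
  have hξτ : ∀ n m (h : D), ξ (τ n m h).1 = ξ h.1 := by
    intro n m h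
    rw [hτ]
    exact (hinv h.1 _ (hgL m _)).2.2
  -- the point `τ n m h`
  have hpt : ∀ n m (h : D), (τ n m h).1 =
      ξ h.1 * ((ξ h.1)⁻¹ * h.1 * (l m)⁻¹) * d (Nat.pair n m) := by
    intro n m h
    rw [hτ]
    group
  have hV4 : ∀ a ∈ V, ∀ b ∈ V, ∀ c ∈ V, a * b * c ∈ V * V * V * V := by
    intro a ha b hb c hc
    have : a * b * c = a * b * c * 1 := by rw [mul_one]
    rw [this]
    exact Set.mul_mem_mul (Set.mul_mem_mul (Set.mul_mem_mul ha hb) hc) hV1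
  refine h1 D ℕ {x : D | x.1 ∈ Z} (fun _ m => χ m) τ ?_ (fun _ => hχl) ?_ (fun _ h => hχs h) ?_
  · intro n m x
    change (τ n m x).1 ∈ Z ↔ x.1 ∈ Z
    rw [hτ]
    exact (hinv x.1 _ (hgL m _)).2.1
  · intro y₀
    have hW1 : ∀ᶠ y : D in nhds y₀, ξ y.1 = ξ y₀.1 := by
      have h3 := (continuous_subtype_val.tendsto y₀).eventually (hloc y₀.1 y₀.2)
      exact h3.mono fun y hy => hy y.2
    have hW2 : ∀ᶠ y : D in nhds y₀, (ξ y₀.1)⁻¹ * y.1 * y₀.1⁻¹ * ξ y₀.1 ∈ V₀ := by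
      have hc : Continuous (fun y : D => (ξ y₀.1)⁻¹ * y.1 * y₀.1⁻¹ * ξ y₀.1) :=
        ((continuous_const.mul continuous_subtype_val).mul continuous_const).mul
          continuous_const
      have h3 : (ξ y₀.1)⁻¹ * y₀.1 * y₀.1⁻¹ * ξ y₀.1 ∈ V₀ := by
        have : (ξ y₀.1)⁻¹ * y₀.1 * y₀.1⁻¹ * ξ y₀.1 = 1 := by group
        rwa [this]
      exact hc.continuousAt.eventually_mem (hV₀.mem_nhds h3)
    refine ⟨_, hW1.and hW2, Set.Subsingleton.finite ?_⟩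
    rintro ⟨n, m⟩ ⟨y, ⟨h, hh, rfl⟩, hy1, hy2⟩ ⟨n', m'⟩ ⟨y', ⟨h', hh', rfl⟩, hy1', hy2'⟩
    simp only at hy1 hy2 hy1' hy2' hh hh'
    rw [hξτ] at hy1 hy1'
    have hvm := hv m h hh
    have hvm' := hv m' h' hh'
    have e1 := hpt n m h
    have e2 := hpt n' m' h'
    rw [hy1] at hvm e1
    rw [hy1'] at hvm' e2
    obtain ⟨x, hx⟩ : ∃ x, x = ξ y₀.1 := ⟨_, rfl⟩
    obtain ⟨v, hvv⟩ : ∃ v, v = (ξ y₀.1)⁻¹ * h.1 * (l m)⁻¹ := ⟨_, rfl⟩
    obtain ⟨v', hvv'⟩ : ∃ v', v' = (ξ y₀.1)⁻¹ * h'.1 * (l m')⁻¹ := ⟨_, rfl⟩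
    rw [← hvv, ← hx] at e1
    rw [← hvv', ← hx] at e2
    rw [← hvv] at hvm
    rw [← hvv'] at hvm'
    rw [← hx, e1] at hy2
    rw [← hx, e2] at hy2'
    have h5 := hVV _ hy2' _ (hV₀i _ hy2)
    have h6 := hV4 _ (hVi _ hvm') _ h5 _ hvm
    have h7 : v'⁻¹ * (x⁻¹ * (x * v' * d (Nat.pair n' m')) * y₀.1⁻¹ * x *
        (x⁻¹ * (x * v * d (Nat.pair n m)) * y₀.1⁻¹ * x)⁻¹) * v =
        d (Nat.pair n' m') * (d (Nat.pair n m))⁻¹ := by group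
    rw [h7] at h6
    have h8 : Nat.pair n' m' = Nat.pair n m := by
      by_contra hcon
      exact hdis _ _ hcon h6
    rw [Nat.pair_eq_pair] at h8
    exact Prod.ext h8.1.symm h8.2.symm
  · intro n m n' m' h h' hh hh' hyy
    have hvm := hv m h hh
    have hvm' := hv m' h' hh'
    have e0 : ξ h.1 = ξ h'.1 := by
      rw [← hξτ n m h, ← hξτ n' m' h', hyy]
    have e1 := hpt n m h
    have e2 := hpt n' m' h'
    rw [← hyy, e1, ← e0] at e2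
    rw [← e0] at hvm'
    have h5 := hV4 _ (hVi _ hvm') _ hvm _ hV1
    obtain ⟨x, hx⟩ : ∃ x, x = ξ h.1 := ⟨_, rfl⟩
    obtain ⟨v, hvv⟩ : ∃ v, v = (ξ h.1)⁻¹ * h.1 * (l m)⁻¹ := ⟨_, rfl⟩
    obtain ⟨v', hvv'⟩ : ∃ v', v' = (ξ h.1)⁻¹ * h'.1 * (l m')⁻¹ := ⟨_, rfl⟩
    rw [← hvv, ← hvv', ← hx] at e2
    rw [← hvv, ← hvv', mul_one] at h5
    have h6 : v'⁻¹ * v = d (Nat.pair n' m') * (d (Nat.pair n m))⁻¹ := by
      have h7 : v * d (Nat.pair n m) = v' * d (Nat.pair n' m') := by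
        have := congrArg (fun g => x⁻¹ * g) e2
        simpa [mul_assoc] using this
      rw [inv_mul_eq_iff_eq_mul, ← mul_assoc, ← h7, mul_inv_cancel_right]
    rw [h6] at h5
    have h8 : Nat.pair n' m' = Nat.pair n m := by
      by_contra hcon
      exact hdis _ _ hcon h5
    rw [Nat.pair_eq_pair] at h8
    exact ⟨h8.1.symm, h8.2.symm⟩

end Pool.Agent.NPG.H4
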